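import Mathlib

namespace Pool.Agent.Results.MP_b67006_nt.Counter

open Finset

/-- The generalized central trinomial coefficient `T_n(b,c)`. -/
def T (n : ℕ) (b c : ℤ) : ℤ :=
  ∑ j ∈ range (n / 2 + 1), (n.choose (2 * j) : ℤ) * ((2 * j).choose j : ℤ) * b ^ (n - 2 * j) * c ^ j

/-- The sum `S_p`. -/
def S (p : ℕ) : ℚ :=
  ∑ k ∈ range ((p - 1) / 2 + 1), ((2 * k).choose k : ℚ) / 16 ^ k * (T (2 * k) 2 3 : ℚ)

/-- The sum `S'_p`. -/
def S' (p : ℕ) : ℚ := ∑ k ∈ range p, ((2 * k).choose k : ℚ) / 16 ^ k * (T (2 * k) 4 (-3) : ℚ)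

/-- `u ≡ v (mod p^m)`: the rational `(u - v) / p^m` has denominator prime to `p`. -/
def Cong (p m : ℕ) (u v : ℚ) : Prop := Nat.Coprime ((u - v) / (p : ℚ) ^ m).den p

instance (p m : ℕ) (u v : ℚ) : Decidable (Cong p m u v) := by unfold Cong; infer_instance

theorem result : ∃ p : ℕ, p.Prime ∧ 3 < p ∧ p % 3 = 1 ∧ ¬ Cong p 2 (S p) (S' p) := by
  refine ⟨7, by norm_num, by norm_num, by norm_num, ?_⟩
  decide +kernel

end Pool.Agent.Results.MP_b67006_nt.Counter
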